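import Mathlib

set_option autoImplicit false

namespace Pool.Agent.Results.MP_4ee39a_co.JetsCounter

open Finset

/-- `W` meets every edge -/
def IsCover {X : Type} [DecidableEq X] (E : Finset (Finset X)) (W : Finset X) : Prop :=
  ∀ e ∈ E, (e ∩ W).Nonempty

/-- minimal vertex cover -/
def IsMinCover {X : Type} [DecidableEq X] (E : Finset (Finset X)) (W : Finset X) : Prop :=
  IsCover E W ∧ ∀ W' : Finset X, W' ⊂ W → ¬ IsCover E W'

/-- every minimal vertex cover has exactly `|X| / d` elements -/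
def VeryWellCovered {X : Type} [Fintype X] [DecidableEq X] (d : ℕ) (E : Finset (Finset X)) : Prop :=
  ∀ W : Finset X, IsMinCover E W → d * W.card = Fintype.card X

/-- the edges of the clutter of `s`-jets, on the vertex set `X × {0, …, s}` -/
def jets {X : Type} [Fintype X] [DecidableEq X] (s : ℕ) (E : Finset (Finset X)) :
    Finset (Finset (X × Fin (s + 1))) :=
  E.biUnion fun e =>
    (univ.filter fun ι : X → Fin (s + 1) => ∑ x ∈ e, (ι x : ℕ) ≤ s).image
      fun ι => e.image fun x => (x, ι x)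

def C : Finset (Finset (Fin 6)) := {{0, 1, 2}, {0, 1, 5}, {0, 4, 2}, {3, 1, 2}}

instance {X : Type} [DecidableEq X] (E : Finset (Finset X)) (W : Finset X) :
    Decidable (IsCover E W) := by unfold IsCover; infer_instance

theorem vwc : VeryWellCovered 3 C := by
  intro W hW
  have key : ∀ W : Finset (Fin 6), IsCover C W →
      W.card = 2 ∨ ∃ x ∈ W, IsCover C (W.erase x) := by decide +kernel
  rcases key W hW.1 with h | ⟨x, hx, h⟩
  · simp [h]
  · exact absurd h (hW.2 _ (erase_ssubset hx))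

def W0 : Finset (Fin 6 × Fin (1 + 1)) := {(0, 0), (1, 0), (2, 0)}

theorem cov : IsCover (jets 1 C) W0 := by
  intro e he
  simp only [jets, mem_biUnion, mem_image, mem_filter, mem_univ, true_and] at he
  obtain ⟨f, hf, ι, hι, rfl⟩ := he
  have key : ∀ f ∈ C, ∀ ι : Fin 6 → Fin (1 + 1), ∑ x ∈ f, (ι x : ℕ) ≤ 1 →
      ((f.image fun x => (x, ι x)) ∩ W0).Nonempty := by decide +kernel
  exact key f hf ι hι

theorem mincov : IsMinCover (jets 1 C) W0 := by
  refine ⟨cov, ?_⟩
  intro W' hW' hc
  have e1 : ({(0, 0), (1, 1), (5, 0)} : Finset (Fin 6 × Fin (1 + 1))) ∈ jets 1 C := by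
    simp only [jets, mem_biUnion, mem_image, mem_filter, mem_univ, true_and]
    exact ⟨{0, 1, 5}, by decide, ![0, 1, 0, 0, 0, 0], by decide, by decide⟩
  have e2 : ({(0, 1), (1, 0), (5, 0)} : Finset (Fin 6 × Fin (1 + 1))) ∈ jets 1 C := by
    simp only [jets, mem_biUnion, mem_image, mem_filter, mem_univ, true_and]
    exact ⟨{0, 1, 5}, by decide, ![1, 0, 0, 0, 0, 0], by decide, by decide⟩
  have e3 : ({(0, 1), (4, 0), (2, 0)} : Finset (Fin 6 × Fin (1 + 1))) ∈ jets 1 C := by
    simp only [jets, mem_biUnion, mem_image, mem_filter, mem_univ, true_and]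
    exact ⟨{0, 4, 2}, by decide, ![1, 0, 0, 0, 0, 0], by decide, by decide⟩
  have key : ∀ (e : Finset (Fin 6 × Fin (1 + 1))) (y : Fin 6 × Fin (1 + 1)), e ∈ jets 1 C →
      (∀ x, x ∈ e → x ∈ W0 → x = y) → y ∈ W' := by
    intro e y he hy
    obtain ⟨x, hx⟩ := hc e he
    rw [mem_inter] at hx
    rw [← hy x hx.1 (hW'.subset hx.2)]
    exact hx.2
  have h1 := key _ (0, 0) e1 (by decide)
  have h2 := key _ (1, 0) e2 (by decide)
  have h3 := key _ (2, 0) e3 (by decide)
  apply hW'.not_subset
  intro x hx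
  simp only [W0, mem_insert, mem_singleton] at hx
  rcases hx with rfl | rfl | rfl <;> assumption

/-- There is a very well-covered 3-uniform clutter whose clutter of 1-jets is not very
well-covered. -/
theorem result :
    ¬ ∀ (X : Type) [Fintype X] [DecidableEq X] (d : ℕ) (E : Finset (Finset X)),
      (∀ e ∈ E, ∀ f ∈ E, e ⊆ f → e = f) → (∀ e ∈ E, e.card = d) → (∀ x, ∃ e ∈ E, x ∈ e) →
      VeryWellCovered d E → ∀ s : ℕ, VeryWellCovered d (jets s E) := by
  intro h
  have := h (Fin 6) 3 C (by decide) (by decide) (by decide) vwc 1 W0 mincov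
  revert this
  decide

end Pool.Agent.Results.MP_4ee39a_co.JetsCounter
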